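import Pool.Agent.H53.GC.Targets

/-!
# Row SEL of the board bpg: selection of coordinates for structures which pp-construct `K₃`
-/

set_option autoImplicit false

namespace Pool.Agent.H77.GC

open Pool.Agent.H53.GC Pool.Agent.H68.BP Pool.Agent.H58.SF
open Classical

/-- primitive positive definable sets are preserved by polymorphisms -/
theorem pp_pres {σ : Sig} {Y : Type} {𝕐 : Str σ Y} {D : Type} {S : Set (D → Y)}
    (hS : PPDefinable 𝕐 S) {I : Type} {f : (I → Y) → Y} (hf : IsPoly 𝕐 𝕐 f) (z : I → D → Y)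
    (hz : ∀ i, z i ∈ S) : (fun d => f (fun i => z i d)) ∈ S := by
  obtain ⟨q, φ, hφ⟩ := hS
  have h1 : ∀ i, ∃ y : Fin q → Y, ∀ a ∈ φ, a.Holds 𝕐 (Sum.elim (z i) y) := fun i =>
    (hφ (z i)).1 (hz i)
  choose y hy using h1
  refine (hφ _).2 ⟨fun b => f (fun i => y i b), fun a ha => ?_⟩
  have h2 : (Sum.elim (fun d => f (fun i => z i d)) fun b => f (fun i => y i b)) =
      fun s => f (fun i => Sum.elim (z i) (y i) s) := by
    funext s
    rcases s with s | s <;> rfl
  rw [h2]
  rcases a with ⟨x, y'⟩ | ⟨l, t⟩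
  · show f (fun i => Sum.elim (z i) (y i) x) = f (fun i => Sum.elim (z i) (y i) y')
    congr 1
    funext i
    exact hy i _ ha
  · exact hf l (fun i k => Sum.elim (z i) (y i) (t k)) fun i => hy i _ ha

theorem pf_SEL (hK : T_K3L) : T_SEL := by
  rintro σ Y 𝕐 ⟨n, E, hn, hpp, ⟨t, ht⟩, ⟨c, hc⟩⟩
  have hE : ∀ (I : Type) (f : (I → Y) → Y), IsPoly 𝕐 𝕐 f → ∀ u v : I → Fin n → Y,
      (∀ i, E (u i) (v i)) → E (fun a => f (fun i => u i a)) (fun a => f (fun i => v i a)) :=
    fun I f hf u v huv => pp_pres hpp hf (fun i => Sum.elim (u i) (v i)) huv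
  refine ⟨fun I f i => ∃ u : Fin 3 → Fin 3, Function.Injective u ∧
    ∀ x : I → Fin 3, c (fun a => f (fun i => t (x i) a)) = u (x i), ?_, ?_⟩
  · intro I _ f hf
    exact hK I (fun x => c (fun a => f (fun i => t (x i) a))) fun x y hxy =>
      hc _ _ (hE I f hf (fun i => t (x i)) (fun i => t (y i)) fun i => ht _ _ (hxy i))
  · rintro I J _ _ π f i j hf ⟨u, hu, h1⟩ ⟨u', hu', h2⟩
    by_contra hne
    have h3 : ∀ x : J → Fin 3, u (x (π i)) = u' (x j) := by
      intro x
      rw [← h1 (fun i => x (π i)), ← h2 x]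
      rfl
    have h4 := h3 (fun _ => 0)
    have h5 := h3 (Function.update (fun _ => 0) j 1)
    rw [Function.update_of_ne hne, Function.update_self] at h5
    rw [h4] at h5
    exact absurd (hu' h5) (by decide)

end Pool.Agent.H77.GC
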